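import Pool.Agent.Helper27.LX.St

/-!
# Project LX (MP_d57c14_nt), module SMO: smooth numbers by the trick of Rankin
-/

set_option autoImplicit false

noncomputable section

namespace Pool.Agent.Helper47.LX

open Finset
open Pool.Agent.Helper27.LX
open Pool.Agent.Helper15.AB (StMT)

/-- Upper bound in the first theorem of Mertens. -/
private theorem mertens_upper (n : ℕ) (hn : 1 ≤ n) :
    ∑ p ∈ (Icc 1 n).filter Nat.Prime, Real.log p / p ≤ Real.log n + Real.log 4 := by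
  have hP : ∀ p ∈ (Icc 1 n).filter Nat.Prime, p ≤ n ∧ p.Prime := by
    intro p hp
    rw [Finset.mem_filter, Finset.mem_Icc] at hp
    exact ⟨hp.1.2, hp.2⟩
  have h1 : ∑ p ∈ (Icc 1 n).filter Nat.Prime, ((n / p : ℕ) : ℝ) * Real.log p ≤
      Real.log (n.factorial : ℕ) := by
    rw [Real.log_nat_eq_sum_factorization, Finsupp.sum]
    have hsub : (Icc 1 n).filter Nat.Prime ⊆ (n.factorial).factorization.support := by
      intro p hp
      have hp' := hP p hp
      rw [Nat.support_factorization, Nat.mem_primeFactors]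
      exact ⟨hp'.2, hp'.2.dvd_factorial.2 hp'.1, Nat.factorial_ne_zero n⟩
    refine le_trans ?_ (Finset.sum_le_sum_of_subset_of_nonneg hsub
      (fun p _ _ => mul_nonneg (Nat.cast_nonneg _) (Real.log_natCast_nonneg p)))
    refine Finset.sum_le_sum fun p hp => ?_
    have hp' := hP p hp
    refine mul_le_mul_of_nonneg_right ?_ (Real.log_natCast_nonneg p)
    have hfac := Nat.factorization_factorial hp'.2 (n := n) (b := Nat.log p n + 1) (by omega)
    rw [hfac]
    have hlog : 1 ≤ Nat.log p n := Nat.log_pos hp'.2.one_lt hp'.1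
    have : n / p ^ 1 ≤ ∑ i ∈ Ico 1 (Nat.log p n + 1), n / p ^ i :=
      Finset.single_le_sum (f := fun i => n / p ^ i) (fun i _ => Nat.zero_le _)
        (Finset.mem_Ico.2 ⟨le_rfl, by omega⟩)
    rw [pow_one] at this
    exact_mod_cast this
  have h2 : Real.log (n.factorial : ℕ) ≤ n * Real.log n := by
    have : ((n.factorial : ℕ) : ℝ) ≤ (n : ℝ) ^ n := by exact_mod_cast Nat.factorial_le_pow n
    rw [← Real.log_pow]
    exact Real.log_le_log (by exact_mod_cast Nat.factorial_pos n) this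
  have h3 : ∑ p ∈ (Icc 1 n).filter Nat.Prime, Real.log p ≤ Real.log 4 * n := by
    have e : (Icc 1 n).filter Nat.Prime = n.primesLE := by
      ext p
      rw [Finset.mem_filter, Finset.mem_Icc, Nat.mem_primesLE]
      exact ⟨fun h => ⟨h.1.2, h.2⟩, fun h => ⟨⟨h.2.one_lt.le, h.1⟩, h.2⟩⟩
    rw [e, ← Chebyshev.theta_eq_sum_primesLE_log]
    exact Chebyshev.theta_le_log4_mul_x (by positivity)
  have h4 : (n : ℝ) * ∑ p ∈ (Icc 1 n).filter Nat.Prime, Real.log p / p ≤
      ∑ p ∈ (Icc 1 n).filter Nat.Prime, ((n / p : ℕ) : ℝ) * Real.log p +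
        ∑ p ∈ (Icc 1 n).filter Nat.Prime, Real.log p := by
    rw [Finset.mul_sum, ← Finset.sum_add_distrib]
    refine Finset.sum_le_sum fun p hp => ?_
    have hp' := hP p hp
    have hp0 : (0 : ℝ) < p := by exact_mod_cast hp'.2.pos
    have hlog := Real.log_natCast_nonneg p
    have hdiv : (n : ℝ) / p ≤ ((n / p : ℕ) : ℝ) + 1 := by
      rw [div_le_iff₀ hp0]
      have h5 := Nat.div_add_mod n p
      have h6 := Nat.mod_lt n hp'.2.pos
      have h7 : n ≤ (n / p + 1) * p := by nlinarith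
      exact_mod_cast h7
    calc (n : ℝ) * (Real.log p / p) = (n : ℝ) / p * Real.log p := by ring
      _ ≤ (((n / p : ℕ) : ℝ) + 1) * Real.log p := mul_le_mul_of_nonneg_right hdiv hlog
      _ = _ := by ring
  have hn0 : (0 : ℝ) < n := by exact_mod_cast hn
  have h5 : (n : ℝ) * ∑ p ∈ (Icc 1 n).filter Nat.Prime, Real.log p / p ≤
      n * (Real.log n + Real.log 4) := by
    nlinarith
  exact le_of_mul_le_mul_left h5 hn0

/-- `k ↦ k ^ (- σ)` -/
private def pw (σ : ℝ) : ℕ →* ℝ where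
  toFun k := (k : ℝ) ^ (-σ)
  map_one' := by simp
  map_mul' a b := by
    rw [Nat.cast_mul, Real.mul_rpow (Nat.cast_nonneg a) (Nat.cast_nonneg b)]

private lemma two_pow : (2 : ℝ) ^ (-(3 / 4) : ℝ) ≤ 2 / 3 := by
  have h0 : (0 : ℝ) ≤ 2 ^ (-(3 / 4) : ℝ) := by positivity
  have h1 : ((2 : ℝ) ^ (-(3 / 4) : ℝ)) ^ 4 = 1 / 8 := by
    rw [← Real.rpow_natCast, ← Real.rpow_mul (by norm_num)]
    have : (-(3 / 4) : ℝ) * ((4 : ℕ) : ℝ) = -((3 : ℕ) : ℝ) := by norm_num
    rw [this, Real.rpow_neg (by norm_num), Real.rpow_natCast]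
    norm_num
  by_contra h
  push Not at h
  have h2 : (2 / 3 : ℝ) ^ 4 < ((2 : ℝ) ^ (-(3 / 4) : ℝ)) ^ 4 :=
    pow_lt_pow_left₀ h (by norm_num) (by norm_num)
  rw [h1] at h2
  norm_num at h2

/-- the upper bound with the Euler product -/
private lemma euler (σ : ℝ) (hσ : 3 / 4 ≤ σ) (N K : ℕ) (S : Finset ℕ)
    (hS : ∀ k ∈ S, 1 ≤ k ∧ k ≤ K ∧ k ∈ (N + 1).smoothNumbers) :
    (S.card : ℝ) ≤ (K : ℝ) ^ σ *
      Real.exp (3 * ∑ l ∈ (Icc 1 N).filter Nat.Prime, (l : ℝ) ^ (-σ)) := by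
  have hσ0 : 0 < σ := by linarith
  have hval : ∀ k : ℕ, pw σ k = (k : ℝ) ^ (-σ) := fun _ => rfl
  have hprime : ∀ p : ℕ, p.Prime → 0 < (p : ℝ) ^ (-σ) ∧ (p : ℝ) ^ (-σ) ≤ 2 / 3 := by
    intro p hp
    have hp2 : (2 : ℝ) ≤ p := by exact_mod_cast hp.two_le
    refine ⟨by positivity, ?_⟩
    calc (p : ℝ) ^ (-σ) ≤ (2 : ℝ) ^ (-σ) :=
          Real.rpow_le_rpow_of_nonpos (by norm_num) hp2 (by linarith)
      _ ≤ (2 : ℝ) ^ (-(3 / 4) : ℝ) :=
          Real.rpow_le_rpow_of_exponent_le (by norm_num) (by linarith)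
      _ ≤ 2 / 3 := two_pow
  have hlt : ∀ {p : ℕ}, p.Prime → ‖pw σ p‖ < 1 := by
    intro p hp
    rw [hval, Real.norm_of_nonneg (hprime p hp).1.le]
    have := (hprime p hp).2
    linarith
  obtain ⟨-, hsum⟩ := EulerProduct.summable_and_hasSum_smoothNumbers_prod_primesBelow_geometric
    (f := pw σ) hlt (N + 1)
  have hsum' : HasSum ((((N + 1).smoothNumbers : Set ℕ)).indicator (fun k => pw σ k))
      (∏ p ∈ (N + 1).primesBelow, (1 - pw σ p)⁻¹) := by
    rw [← hasSum_subtype_iff_indicator]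
    exact hsum
  have hnn : ∀ k : ℕ, 0 ≤ pw σ k := fun k => by
    rw [hval]
    positivity
  have h1 : ∑ k ∈ S, pw σ k ≤ ∏ p ∈ (N + 1).primesBelow, (1 - pw σ p)⁻¹ := by
    have h2 := sum_le_hasSum S (fun i _ => Set.indicator_nonneg (fun k _ => hnn k) i) hsum'
    refine le_trans (le_of_eq (Finset.sum_congr rfl fun k hk => ?_)) h2
    rw [Set.indicator_of_mem (hS k hk).2.2]
  have h2 : ∏ p ∈ (N + 1).primesBelow, (1 - pw σ p)⁻¹ ≤
      Real.exp (3 * ∑ l ∈ (Icc 1 N).filter Nat.Prime, (l : ℝ) ^ (-σ)) := by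
    have e : (N + 1).primesBelow = (Icc 1 N).filter Nat.Prime := by
      ext p
      rw [Nat.mem_primesBelow, Finset.mem_filter, Finset.mem_Icc]
      exact ⟨fun h => ⟨⟨h.2.one_lt.le, by omega⟩, h.2⟩, fun h => ⟨by omega, h.2⟩⟩
    rw [e, Finset.mul_sum, Real.exp_sum]
    apply Finset.prod_le_prod
    · intro p hp
      rw [Finset.mem_filter] at hp
      have := hprime p hp.2
      rw [hval]
      apply inv_nonneg.2
      linarith
    · intro p hp
      rw [Finset.mem_filter] at hp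
      obtain ⟨t0, t1⟩ := hprime p hp.2
      rw [hval]
      generalize (p : ℝ) ^ (-σ) = t at t0 t1
      have h3 : 0 < 1 - t := by linarith
      rw [inv_le_iff_one_le_mul₀ h3]
      have h4 := Real.add_one_le_exp (3 * t)
      nlinarith
  have h3 : (S.card : ℝ) ≤ (K : ℝ) ^ σ * ∑ k ∈ S, pw σ k := by
    rw [Finset.mul_sum, Finset.card_eq_sum_ones, Nat.cast_sum]
    refine Finset.sum_le_sum fun k hk => ?_
    obtain ⟨k1, k2, -⟩ := hS k hk
    have hk0 : (0 : ℝ) < k := by exact_mod_cast k1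
    have hkK : (k : ℝ) ≤ K := by exact_mod_cast k2
    rw [hval, Nat.cast_one, Real.rpow_neg hk0.le, ← div_eq_mul_inv,
      one_le_div (by positivity)]
    exact Real.rpow_le_rpow hk0.le hkK hσ0.le
  calc (S.card : ℝ) ≤ (K : ℝ) ^ σ * ∑ k ∈ S, pw σ k := h3
    _ ≤ _ := mul_le_mul_of_nonneg_left (h1.trans h2) (by positivity)

/-- the claim: the sum over the primes -/
private lemma claim (C : ℝ) (hC : ∀ y : ℝ, 3 ≤ y →
    |∑ l ∈ (Icc 1 ⌊y⌋₊).filter Nat.Prime, (1 : ℝ) / l - Real.log (Real.log y)| ≤ C)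
    (η w LL : ℝ) (hη : 0 < η) (hw : 4 ≤ w) (hLL : 1 ≤ LL) (hηw : η * w = Real.log LL)
    (hwL : Real.log w ≤ LL) :
    ∑ l ∈ (Icc 1 ⌊Real.exp w⌋₊).filter Nat.Prime, (l : ℝ) ^ (-(1 - η)) ≤ (4 + C) * LL := by
  have hC0 : 0 ≤ C := le_trans (abs_nonneg _) (hC 3 le_rfl)
  have hexp : 3 ≤ Real.exp w := by
    have := Real.add_one_le_exp w
    linarith
  have hw0 : 0 < w := by linarith
  have h1 := (abs_le.1 (hC (Real.exp w) hexp)).2
  rw [Real.log_exp] at h1
  have hN1 : 1 ≤ ⌊Real.exp w⌋₊ := by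
    rw [Nat.one_le_floor_iff]
    linarith
  have h2 := mertens_upper ⌊Real.exp w⌋₊ hN1
  have h3 : Real.log (⌊Real.exp w⌋₊ : ℕ) ≤ w := by
    have h31 : Real.log (⌊Real.exp w⌋₊ : ℕ) ≤ Real.log (Real.exp w) :=
      Real.log_le_log (by exact_mod_cast hN1) (Nat.floor_le (Real.exp_pos w).le)
    rwa [Real.log_exp] at h31
  have h4 : Real.log 4 ≤ 2 := by
    have : (4 : ℝ) = 2 ^ 2 := by norm_num
    rw [this, Real.log_pow]
    have := Real.log_two_lt_d9
    push_cast
    linarith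
  have hterm : ∀ l ∈ (Icc 1 ⌊Real.exp w⌋₊).filter Nat.Prime,
      (l : ℝ) ^ (-(1 - η)) ≤ 1 / l + LL / w * (Real.log l / l) := by
    intro l hl
    rw [Finset.mem_filter, Finset.mem_Icc] at hl
    have hl0 : (0 : ℝ) < l := by exact_mod_cast hl.1.1
    have hl1 : (1 : ℝ) ≤ l := by exact_mod_cast hl.1.1
    have hlog0 : 0 ≤ Real.log l := Real.log_nonneg hl1
    have hlogw : Real.log l ≤ w := by
      have : (l : ℝ) ≤ Real.exp w :=
        le_trans (by exact_mod_cast hl.1.2) (Nat.floor_le (Real.exp_pos w).le)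
      calc Real.log l ≤ Real.log (Real.exp w) := Real.log_le_log hl0 this
        _ = w := Real.log_exp w
    have e1 : (l : ℝ) ^ (-(1 - η)) = 1 / l * Real.exp (η * Real.log l) := by
      rw [show -(1 - η) = -1 + η by ring, Real.rpow_add hl0, Real.rpow_neg_one, one_div,
        Real.rpow_def_of_pos hl0 η, mul_comm (Real.log (l : ℝ)) η]
    have e2 : Real.exp (η * Real.log l) ≤ 1 + Real.log l / w * LL := by
      have hu0 : 0 ≤ Real.log l / w := by positivity
      have hu1 : Real.log l / w ≤ 1 := by rw [div_le_one hw0]; exact hlogw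
      have hconv := convexOn_exp.2 (Set.mem_univ (0 : ℝ)) (Set.mem_univ (Real.log LL))
        (sub_nonneg.2 hu1) hu0 (by ring)
      simp only [smul_eq_mul, mul_zero, zero_add, Real.exp_zero, mul_one] at hconv
      rw [Real.exp_log (by linarith)] at hconv
      have e3 : η * Real.log l = Real.log l / w * Real.log LL := by
        rw [← hηw]
        field_simp
      rw [e3]
      linarith
    rw [e1]
    have hl1' : 0 ≤ 1 / (l : ℝ) := by positivity
    calc 1 / (l : ℝ) * Real.exp (η * Real.log l)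
        ≤ 1 / l * (1 + Real.log l / w * LL) := mul_le_mul_of_nonneg_left e2 hl1'
      _ = 1 / l + LL / w * (Real.log l / l) := by ring
  have h5 : LL / w * (w + 2) ≤ 2 * LL := by
    rw [div_mul_eq_mul_div, div_le_iff₀ hw0]
    nlinarith
  calc ∑ l ∈ (Icc 1 ⌊Real.exp w⌋₊).filter Nat.Prime, (l : ℝ) ^ (-(1 - η))
      ≤ ∑ l ∈ (Icc 1 ⌊Real.exp w⌋₊).filter Nat.Prime, (1 / l + LL / w * (Real.log l / l)) :=
        Finset.sum_le_sum hterm
    _ = ∑ l ∈ (Icc 1 ⌊Real.exp w⌋₊).filter Nat.Prime, (1 : ℝ) / l +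
        LL / w * ∑ l ∈ (Icc 1 ⌊Real.exp w⌋₊).filter Nat.Prime, Real.log l / l := by
        rw [Finset.sum_add_distrib, Finset.mul_sum]
    _ ≤ (LL + C) + LL / w * (w + 2) := by
        apply add_le_add
        · linarith
        · apply mul_le_mul_of_nonneg_left _ (by positivity)
          linarith
    _ ≤ (4 + C) * LL := by nlinarith

/-- growth conditions -/
private lemma grow (A : ℝ) (hA : 1 ≤ A) : ∃ x₀ : ℕ, ∀ x : ℕ, x₀ ≤ x →
    1 ≤ x ∧ 0 < Real.log x ∧ 1 ≤ Real.log (Real.log x) ∧ 1 ≤ Real.log (Real.log (Real.log x)) ∧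
    4 * (A * Real.log (Real.log x)) ≤ Real.log x := by
  have t1 : Filter.Tendsto (fun x : ℕ => Real.log (x : ℝ)) Filter.atTop Filter.atTop :=
    Real.tendsto_log_atTop.comp tendsto_natCast_atTop_atTop
  have t2 : Filter.Tendsto (fun x : ℕ => Real.log (Real.log (x : ℝ))) Filter.atTop Filter.atTop :=
    Real.tendsto_log_atTop.comp t1
  have t3 : Filter.Tendsto (fun x : ℕ => Real.log (Real.log (Real.log (x : ℝ)))) Filter.atTop
      Filter.atTop := Real.tendsto_log_atTop.comp t2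
  have hlo := Real.isLittleO_log_id_atTop.bound (c := 1 / (4 * A)) (by positivity)
  have h4 := t1.eventually hlo
  have hall := (Filter.eventually_ge_atTop 1).and ((t1.eventually_ge_atTop 1).and
    ((t2.eventually_ge_atTop 1).and ((t3.eventually_ge_atTop 1).and h4)))
  obtain ⟨x₀, hx⟩ := Filter.eventually_atTop.1 hall
  refine ⟨x₀, fun x hxx => ?_⟩
  obtain ⟨a1, a2, a3, a4, a5⟩ := hx x hxx
  refine ⟨a1, by linarith, a3, a4, ?_⟩
  rw [id, Real.norm_of_nonneg (by linarith), Real.norm_of_nonneg (by linarith)] at a5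
  have hA0 : 0 < A := by linarith
  calc 4 * (A * Real.log (Real.log x)) ≤ 4 * (A * (1 / (4 * A) * Real.log x)) := by gcongr
    _ = Real.log x := by field_simp

theorem hSMO (hM : StMT) : StSMO := by
  classical
  obtain ⟨C, hC0, hC⟩ := hM
  obtain ⟨A, hAd⟩ : ∃ A : ℝ, A = 15 + 3 * C := ⟨_, rfl⟩
  have hA : 1 ≤ A := by linarith
  obtain ⟨x₀, hx₀⟩ := grow A hA
  refine ⟨A, hA, x₀, fun x K hx hK => ?_⟩
  obtain ⟨a1, a2, hLL0, a3, a4⟩ := hx₀ x hx
  have hx1 : (1 : ℝ) ≤ x := by exact_mod_cast a1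
  have hxK : (x : ℝ) ≤ K := by exact_mod_cast hK
  obtain ⟨L, hL⟩ : ∃ L : ℝ, L = Real.log x := ⟨_, rfl⟩
  obtain ⟨LL, hLL⟩ : ∃ LL : ℝ, LL = Real.log L := ⟨_, rfl⟩
  obtain ⟨LLL, hLLL⟩ : ∃ LLL : ℝ, LLL = Real.log LL := ⟨_, rfl⟩
  have hlz : lz A x = L * LLL / (A * LL) := by
    unfold lz
    rw [← hL, ← hLL, ← hLLL]
  rw [← hL, ← hLL, ← hLLL] at a3
  rw [← hL, ← hLL] at a4
  rw [← hL] at a2
  rw [← hL, ← hLL] at hLL0
  have hLLp : 0 < LL := by linarith
  have hA0 : 0 < A := by linarith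
  have hLLL_le : LLL ≤ LL := by
    rw [hLLL]
    have := Real.log_le_sub_one_of_pos hLLp
    linarith
  obtain ⟨η, hηd⟩ : ∃ η : ℝ, η = A * LL / L := ⟨_, rfl⟩
  have hη0 : 0 < η := by rw [hηd]; positivity
  have hη1 : η ≤ 1 / 4 := by
    rw [hηd, div_le_iff₀ a2]
    linarith
  obtain ⟨w, hwd⟩ : ∃ w : ℝ, w = lz A x := ⟨_, rfl⟩
  rw [← hwd]
  rw [← hwd] at hlz
  have hηw : η * w = LLL := by
    rw [hηd, hlz]
    field_simp
  have hw4 : 4 ≤ w := by
    by_contra h
    push Not at h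
    have : η * w < 1 / 4 * 4 := by
      have : η * w ≤ 1 / 4 * w ∨ w < 0 := by
        rcases le_or_gt 0 w with h' | h'
        · exact Or.inl (mul_le_mul_of_nonneg_right hη1 h')
        · exact Or.inr h'
      rcases this with h' | h'
      · linarith
      · nlinarith
    linarith
  have hwL : w ≤ L := by
    rw [hlz, div_le_iff₀ (by positivity)]
    apply mul_le_mul_of_nonneg_left _ a2.le
    nlinarith
  have hlogw : Real.log w ≤ LL := by
    rw [hLL]
    exact Real.log_le_log (by linarith) hwL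
  have hcl := claim C hC η w LL hη0 hw4 hLL0 (hηw.trans hLLL) hlogw
  refine (euler (1 - η) (by linarith) ⌊Real.exp w⌋₊ K _ (fun k hk => ?_)).trans ?_
  · rw [Finset.mem_filter, Finset.mem_Icc] at hk
    refine ⟨hk.1.1, hk.1.2, ?_⟩
    rw [Nat.mem_smoothNumbers']
    intro p hp hpk
    have h1 := hk.2 p hp hpk
    have hp0 : (0 : ℝ) < p := by exact_mod_cast hp.pos
    have h2 : (p : ℝ) ≤ Real.exp w := by
      rwa [← Real.log_le_iff_le_exp hp0]
    have h3 := Nat.le_floor h2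
    omega
  have hK0 : (0 : ℝ) < K := by linarith
  have hLe : L = Real.exp LL := by rw [hLL, Real.exp_log a2]
  have hKp : (K : ℝ) ^ (1 - η) ≤ K * Real.exp (-(A * LL)) := by
    rw [sub_eq_add_neg, Real.rpow_add hK0, Real.rpow_one]
    apply mul_le_mul_of_nonneg_left _ hK0.le
    rw [Real.rpow_def_of_pos hK0]
    apply Real.exp_le_exp.2
    have h1 : L ≤ Real.log K := by
      rw [hL]
      exact Real.log_le_log (by linarith) hxK
    have h2 : η * L = A * LL := by
      rw [hηd]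
      field_simp
    nlinarith
  calc (K : ℝ) ^ (1 - η) * Real.exp (3 * ∑ l ∈ (Icc 1 ⌊Real.exp w⌋₊).filter Nat.Prime,
        (l : ℝ) ^ (-(1 - η)))
      ≤ (K * Real.exp (-(A * LL))) * Real.exp (3 * ((4 + C) * LL)) := by
        apply mul_le_mul hKp _ (Real.exp_pos _).le (by positivity)
        apply Real.exp_le_exp.2
        linarith
    _ = K * Real.exp (-(3 * LL)) := by
        rw [mul_assoc, ← Real.exp_add, hAd]
        congr 2
        ring
    _ = K / Real.log x ^ 3 := by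
        rw [← hL, hLe, Real.exp_neg, ← Real.exp_nat_mul, div_eq_mul_inv]
        norm_num

end Pool.Agent.Helper47.LX
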